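import Mathlib

set_option autoImplicit false
open MeasureTheory Filter Topology Matrix Polynomial

namespace Pool.Agent.Results.MP_2489e7_pr.TwoPoints

abbrev G := GL (Fin 2) ℝ

/-- the Euclidean operator norm -/
noncomputable def nrm (g : G) : ℝ := ‖toEuclideanCLM (𝕜 := ℝ) (n := Fin 2) g.val‖

section defs
variable [MeasurableSpace G]

/-- convolution powers -/
noncomputable def cpow (μ : Measure G) : ℕ → Measure G
  | 0 => Measure.dirac 1
  | n + 1 => μ.mconv (cpow μ n)

/-- the closed semigroup generated by the support -/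
def sg (μ : Measure G) : Set G := closure (Subsemigroup.closure μ.support : Set G)

/-- no finite union of proper nonzero subspaces is invariant -/
def StronglyIrreducible (μ : Measure G) : Prop :=
  ¬∃ 𝓕 : Finset (Submodule ℝ (Fin 2 → ℝ)), 𝓕.Nonempty ∧ (∀ V ∈ 𝓕, V ≠ ⊥ ∧ V ≠ ⊤) ∧
    ∀ g ∈ sg μ, ∀ v, (∃ V ∈ 𝓕, v ∈ V) → ∃ V ∈ 𝓕, g.val *ᵥ v ∈ V

/-- some element has a simple eigenvalue of strictly largest modulus -/
def Proximal (μ : Measure G) : Prop :=
  ∃ g ∈ sg μ, ∃ l : ℂ, (g.val.map Complex.ofReal).charpoly.rootMultiplicity l = 1 ∧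
    ∀ z, (g.val.map Complex.ofReal).charpoly.IsRoot z → z ≠ l → ‖z‖ < ‖l‖

end defs

noncomputable def a : G := GeneralLinearGroup.mkOfDetNeZero !![1, 1; 0, 1] (by simp)
noncomputable def b : G := GeneralLinearGroup.mkOfDetNeZero !![2, 0; 2, 2] (by simp)

lemma a_val : a.val = !![1, 1; 0, 1] := rfl
lemma b_val : b.val = !![2, 0; 2, 2] := rfl

lemma a_pow (n : ℕ) : (a ^ n).val = (1 : ℝ) ^ n • (1 + (n : ℝ) • !![0, 1; 0, 0]) := by
  induction n with
  | zero => simp
  | succ n ih =>
    rw [pow_succ, Units.val_mul, ih, a_val, one_fin_two]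
    ext i j
    fin_cases i <;> fin_cases j <;> simp [Matrix.mul_apply, add_comm]

lemma b_pow (n : ℕ) : (b ^ n).val = (2 : ℝ) ^ n • (1 + (n : ℝ) • !![0, 0; 1, 0]) := by
  induction n with
  | zero => simp
  | succ n ih =>
    rw [pow_succ, Units.val_mul, ih, b_val, one_fin_two]
    ext i j
    fin_cases i <;> fin_cases j <;> simp [Matrix.mul_apply, pow_succ]
    ring

lemma nrm_mul (g h : G) : nrm (g * h) ≤ nrm g * nrm h := by
  simp only [nrm, Units.val_mul, map_mul]
  exact norm_mul_le _ _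

lemma nrm_pos (g : G) : 0 < nrm g := by
  refine norm_pos_iff.2 fun h => g.ne_zero ?_
  exact (toEuclideanCLM (𝕜 := ℝ) (n := Fin 2)).injective (h.trans (map_zero _).symm)

def X (g : G) : ℝ := g.val 0 0 + g.val 0 1
def Y (g : G) : ℝ := g.val 1 0 + g.val 1 1

lemma nrm_ge (g : G) : X g * Y g ≤ nrm g ^ 2 := by
  have h := (toEuclideanCLM (𝕜 := ℝ) (n := Fin 2) g.val).le_opNorm (WithLp.toLp 2 fun _ => 1)
  have h2 := pow_le_pow_left₀ (norm_nonneg _) h 2
  rw [mul_pow, EuclideanSpace.norm_sq_eq, EuclideanSpace.norm_sq_eq] at h2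
  simp [mulVec, dotProduct] at h2
  unfold X Y nrm
  nlinarith [sq_nonneg (g.val 0 0 + g.val 0 1 - (g.val 1 0 + g.val 1 1))]

def Q (g : G) : Prop := 0 < X g ∧ 0 < Y g ∧ 1 ≤ g.val.det ∧ g.val.det ≤ X g * Y g

lemma XYa (g : G) : X (a * g) = X g + Y g ∧ Y (a * g) = Y g ∧ (a * g).val.det = g.val.det := by
  rw [Units.val_mul, det_mul]
  simp [X, Y, a_val, Matrix.mul_apply]
  ring

lemma XYb (g : G) :
    X (b * g) = 2 * X g ∧ Y (b * g) = 2 * (X g + Y g) ∧ (b * g).val.det = 4 * g.val.det := by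
  rw [Units.val_mul, det_mul]
  simp [X, Y, b_val, Matrix.mul_apply]
  refine ⟨by ring, by ring, by norm_num⟩

lemma Q.mul {g : G} (h : Q g) : Q (a * g) ∧ Q (b * g) := by
  obtain ⟨h1, h2, h3, h4⟩ := h
  simp only [Q, XYa, XYb]
  refine ⟨⟨by linarith, h2, h3, by nlinarith⟩, by linarith, by linarith, by linarith, by nlinarith⟩

variable [MeasurableSpace G] [BorelSpace G]

noncomputable def mu : Measure G :=
  ENNReal.ofReal (1 / 9) • Measure.dirac a + ENNReal.ofReal (8 / 9) • Measure.dirac b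

lemma mu_prob : IsProbabilityMeasure mu :=
  ⟨by
    simp only [mu, Measure.add_apply, Measure.smul_apply, measure_univ, smul_eq_mul, mul_one]
    rw [← ENNReal.ofReal_add] <;> norm_num⟩

lemma cpow_prob (n : ℕ) : IsProbabilityMeasure (cpow mu n) := by
  have := mu_prob
  have : SecondCountableTopology (Matrix (Fin 2) (Fin 2) ℝ) :=
    inferInstanceAs (SecondCountableTopology (Fin 2 → Fin 2 → ℝ))
  have : SecondCountableTopology (Matrix (Fin 2) (Fin 2) ℝ)ᵐᵒᵖ :=
    MulOpposite.opHomeomorph.symm.secondCountableTopology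
  have : SecondCountableTopology G := Units.isEmbedding_embedProduct.secondCountableTopology
  induction n with
  | zero => exact Measure.dirac.isProbabilityMeasure
  | succ n ih => exact Measure.probabilitymeasure_of_probabilitymeasures_mconv _ _

lemma cpow_succ (n : ℕ) : cpow mu (n + 1) =
    ENNReal.ofReal (1 / 9) • (cpow mu n).map (MeasurableEquiv.mulLeft a) +
    ENNReal.ofReal (8 / 9) • (cpow mu n).map (MeasurableEquiv.mulLeft b) := by
  have := cpow_prob n
  have : SecondCountableTopology (Matrix (Fin 2) (Fin 2) ℝ) :=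
    inferInstanceAs (SecondCountableTopology (Fin 2 → Fin 2 → ℝ))
  have : SecondCountableTopology (Matrix (Fin 2) (Fin 2) ℝ)ᵐᵒᵖ :=
    MulOpposite.opHomeomorph.symm.secondCountableTopology
  have : SecondCountableTopology G := Units.isEmbedding_embedProduct.secondCountableTopology
  have : ∀ (r : ℝ) (x : G), IsFiniteMeasure (ENNReal.ofReal r • Measure.dirac x) :=
    fun r x => ⟨by simp⟩
  rw [cpow]
  nth_rw 1 [mu]
  rw [Measure.add_mconv, Measure.mconv_smul_left, Measure.mconv_smul_left,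
    Measure.dirac_mconv, Measure.dirac_mconv]
  rfl

lemma integ (n : ℕ) : ∀ F : G → ℝ, Integrable F (cpow mu n) := by
  induction n with
  | zero => exact fun F => integrable_dirac (by simp)
  | succ n ih =>
    intro F
    rw [cpow_succ]
    exact (((integrable_map_equiv _ _).2 (ih _)).smul_measure (by simp)).add_measure
      (((integrable_map_equiv _ _).2 (ih _)).smul_measure (by simp))

noncomputable def I (n : ℕ) (F : G → ℝ) : ℝ := ∫ g, F g ∂cpow mu n

lemma I_zero (F : G → ℝ) : I 0 F = F 1 := integral_dirac _ _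

lemma I_succ (n : ℕ) (F : G → ℝ) :
    I (n + 1) F = 1 / 9 * I n (fun g => F (a * g)) + 8 / 9 * I n fun g => F (b * g) := by
  unfold I
  rw [cpow_succ, integral_add_measure (((integrable_map_equiv _ _).2 (integ n _)).smul_measure
    (by simp)) (((integrable_map_equiv _ _).2 (integ n _)).smul_measure (by simp)),
    integral_smul_measure, integral_smul_measure, integral_map_equiv, integral_map_equiv,
    ENNReal.toReal_ofReal (by norm_num), ENNReal.toReal_ofReal (by norm_num)]
  rfl

lemma I_mono (n : ℕ) : ∀ {F F' : G → ℝ}, (∀ g, Q g → F g ≤ F' g) → I n F ≤ I n F' := by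
  induction n with
  | zero => exact fun h => by simpa only [I_zero] using h 1 (by norm_num [Q, X, Y])
  | succ n ih =>
    intro F F' h
    have h1 := ih (F := fun g => F (a * g)) fun g hg => h _ hg.mul.1
    have h2 := ih (F := fun g => F (b * g)) fun g hg => h _ hg.mul.2
    rw [I_succ, I_succ]
    linarith

lemma I_const (n : ℕ) (c : ℝ) : I n (fun _ => c) = c := by
  have := cpow_prob n
  simp [I]

lemma I_mul (n : ℕ) (c : ℝ) (F : G → ℝ) : I n (fun g => c * F g) = c * I n F :=
  integral_const_mul _ _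

lemma I_add (n m : ℕ) : ∀ F : G → ℝ, I (m + n) F = I n fun g => I m fun h => F (g * h) := by
  induction n with
  | zero => simp [I_zero]
  | succ n ih => exact fun F => by simp only [← add_assoc, I_succ, ih, mul_assoc]

lemma I_low (n : ℕ) : ∀ F : G → ℝ, (∀ g, 0 ≤ F g) →
    (1 / 9) ^ n * F (a ^ n) ≤ I n F ∧ (8 / 9) ^ n * F (b ^ n) ≤ I n F := by
  induction n with
  | zero => simp [I_zero]
  | succ n ih =>
    intro F h
    have h1 := (ih (fun g => F (a * g)) fun _ => h _).1
    have h2 := (ih (fun g => F (b * g)) fun _ => h _).2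
    have h3 : 0 ≤ I n fun g => F (a * g) := integral_nonneg fun _ => h _
    have h4 : 0 ≤ I n fun g => F (b * g) := integral_nonneg fun _ => h _
    simp only [I_succ, pow_succ']
    constructor <;> linarith

lemma Z_pos (n : ℕ) (t : ℝ) : 0 < I n fun g => nrm g ^ t :=
  lt_of_lt_of_le (mul_pos (by positivity) (Real.rpow_pos_of_pos (nrm_pos _) _))
    (I_low n _ fun g => (Real.rpow_pos_of_pos (nrm_pos g) t).le).1

lemma one_le {g : G} (h : Q g) : 1 ≤ nrm g := by
  nlinarith [nrm_ge g, h.2.2.1, h.2.2.2, nrm_pos g]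

lemma exists_lim (t : ℝ) :
    ∃ k, Tendsto (fun n : ℕ => Real.log (I n fun g => nrm g ^ t) / n) atTop (𝓝 k) := by
  have e : ∀ n m, I n (fun g => I m fun h => nrm g ^ t * nrm h ^ t) =
      (I m fun g => nrm g ^ t) * I n fun g => nrm g ^ t := fun n m => by
    simp only [I_mul, mul_comm (nrm _ ^ t) (I m _)]
  rcases le_total 0 t with h | h
  · have : Subadditive fun n => Real.log (I n fun g => nrm g ^ t) := fun m n => by
      rw [← Real.log_mul (Z_pos _ _).ne' (Z_pos _ _).ne', ← e]
      refine Real.log_le_log (Z_pos _ _) ((I_add n m _).trans_le (I_mono _ fun g _ =>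
        I_mono _ fun h _ => ?_))
      rw [← Real.mul_rpow (nrm_pos _).le (nrm_pos _).le]
      exact Real.rpow_le_rpow (nrm_pos _).le (nrm_mul _ _) ‹_›
    refine ⟨_, this.tendsto_lim ⟨0, ?_⟩⟩
    rintro _ ⟨n, rfl⟩
    exact div_nonneg (Real.log_nonneg ((I_const n 1).ge.trans
      (I_mono _ fun g hg => Real.one_le_rpow (one_le hg) h))) n.cast_nonneg
  · have : Subadditive fun n => -Real.log (I n fun g => nrm g ^ t) := fun m n => by
      rw [← neg_add, neg_le_neg_iff, ← Real.log_mul (Z_pos _ _).ne' (Z_pos _ _).ne']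
      refine Real.log_le_log (mul_pos (Z_pos _ _) (Z_pos _ _)) ((e n m).ge.trans
        ((I_mono _ fun g _ => I_mono _ fun h _ => ?_).trans_eq (I_add n m _).symm))
      rw [← Real.mul_rpow (nrm_pos _).le (nrm_pos _).le]
      exact Real.rpow_le_rpow_of_nonpos (nrm_pos _) (nrm_mul _ _) ‹_›
    refine ⟨_, (this.tendsto_lim ⟨0, ?_⟩).neg.congr fun n => by simp [neg_div]⟩
    rintro _ ⟨n, rfl⟩
    exact div_nonneg (neg_nonneg.2 (Real.log_nonpos (Z_pos _ _).le ((I_mono _ fun g hg =>
      Real.rpow_le_one_of_one_le_of_nonpos (one_le hg) h).trans_eq (I_const n 1)))) n.cast_nonneg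

lemma upper {t M : ℝ} (ht : t ≤ -2) (h1 : 1 / 9 ≤ M) (h2 : 8 / 9 * 2 ^ t ≤ M) (n : ℕ) :
    (I n fun g => nrm g ^ t) ≤ M ^ n := by
  refine (I_mono n (F' := fun g => g.val.det ^ (1 + t / 2) / (X g * Y g)) fun g hg => ?_).trans ?_
  · have p := nrm_pos g
    have q := mul_pos hg.1 hg.2.1
    calc _ = (nrm g ^ 2) ^ (1 + t / 2) / nrm g ^ 2 := by
          rw [← Real.rpow_natCast, ← Real.rpow_mul p.le, ← Real.rpow_sub p]
          congr 1
          push_cast
          ring
      _ ≤ _ := div_le_div₀ (Real.rpow_nonneg (by linarith [hg.2.2.1]) _)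
          (Real.rpow_le_rpow_of_nonpos (by linarith [hg.2.2.1]) (hg.2.2.2.trans (nrm_ge g))
            (by linarith)) q (nrm_ge g)
  induction n with
  | zero => norm_num [I_zero, X, Y]
  | succ n ih =>
    rw [I_succ, ← I_mul, ← I_mul, I, I, ← integral_add (integ _ _) (integ _ _), pow_succ']
    refine (I_mono n fun g hg => ?_).trans ((I_mul n M _).trans_le
      (mul_le_mul_of_nonneg_left ih (by linarith)))
    obtain ⟨x0, y0, d1, -⟩ := hg
    have e : (4 : ℝ) ^ (1 + t / 2) = 4 * 2 ^ t := by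
      rw [Real.rpow_add (by norm_num), Real.rpow_one, show (4 : ℝ) ^ (t / 2) = (2 ^ (2 : ℝ)) ^ (t / 2)
        by norm_num, ← Real.rpow_mul (by norm_num)]
      congr 2
      ring
    simp only [XYa, XYb]
    rw [Real.mul_rpow (by norm_num) (by linarith), e]
    have d0 : 0 < g.val.det ^ (1 + t / 2) := Real.rpow_pos_of_pos (by linarith) _
    generalize g.val.det ^ (1 + t / 2) = D at *
    calc _ = 1 / 9 * (D / ((X g + Y g) * Y g)) + 8 / 9 * 2 ^ t * (D / (X g * (X g + Y g))) := by
          field_simp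
          ring
      _ ≤ M * (D / ((X g + Y g) * Y g)) + M * (D / (X g * (X g + Y g))) := by gcongr
      _ = _ := by field_simp

lemma lower {t k p c : ℝ} (ht : t ≤ 0) (p0 : 0 < p) (c0 : 0 < c) {g : G} {N : Matrix (Fin 2) (Fin 2) ℝ}
    (hg : ∀ n : ℕ, (g ^ n).val = c ^ n • (1 + (n : ℝ) • N))
    (hp : ∀ n, p ^ n * nrm (g ^ n) ^ t ≤ I n fun g => nrm g ^ t)
    (hk : Tendsto (fun n : ℕ => Real.log (I n fun g => nrm g ^ t) / n) atTop (𝓝 k)) :
    Real.log p + t * Real.log c ≤ k := by
  set C := 1 + ‖toEuclideanCLM (𝕜 := ℝ) (n := Fin 2) N‖ with hC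
  have C0 : 0 < C := by positivity
  have h1 := ((Real.isLittleO_log_id_atTop.tendsto_div_nhds_zero.comp
    tendsto_natCast_atTop_atTop).add (tendsto_const_div_atTop_nhds_zero_nat (Real.log C))).const_mul t
    |>.const_add (Real.log p + t * Real.log c)
  simp only [add_zero, mul_zero] at h1
  refine le_of_tendsto_of_tendsto h1 hk (eventually_atTop.2 ⟨1, fun n hn => ?_⟩)
  have n1 : (1 : ℝ) ≤ n := by exact_mod_cast hn
  have h2 : nrm (g ^ n) ≤ c ^ n * (n * C) := by
    rw [nrm, hg, map_smul, map_add, map_smul, map_one, norm_smul, Real.norm_of_nonneg (by positivity)]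
    refine mul_le_mul_of_nonneg_left ((norm_add_le _ _).trans ?_) (by positivity)
    rw [norm_one, norm_smul, Real.norm_natCast, hC]
    linarith
  have h3 := Real.log_le_log (by positivity) ((mul_le_mul_of_nonneg_left
    (Real.rpow_le_rpow_of_nonpos (nrm_pos _) h2 ht) (by positivity)).trans (hp n))
  rw [Real.log_mul (by positivity) (by positivity), Real.log_rpow (by positivity),
    Real.log_mul (by positivity) (by positivity), Real.log_mul (by positivity) C0.ne',
    Real.log_pow, Real.log_pow] at h3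
  simp only [Function.comp, id]
  rw [le_div_iff₀ (by positivity)]
  refine le_trans (le_of_eq ?_) h3
  field_simp
  ring

lemma mem_sg : a ∈ Subsemigroup.closure mu.support ∧ b ∈ Subsemigroup.closure mu.support := by
  constructor <;> refine Subsemigroup.subset_closure ((Measure.mem_support_iff_forall _).2
    fun U hU => ?_) <;> simp [mu, mem_of_mem_nhds hU]

theorem result : ∃ μ : Measure G, IsProbabilityMeasure μ ∧ IsCompact μ.support ∧
    StronglyIrreducible μ ∧ Proximal μ ∧ ∃ k : ℝ → ℝ,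
      (∀ t, Tendsto (fun n : ℕ => Real.log (∫ g, nrm g ^ t ∂cpow μ n) / n) atTop (𝓝 (k t))) ∧
      ∃ s t : ℝ, s ≠ t ∧ ¬AnalyticAt ℝ k s ∧ ¬AnalyticAt ℝ k t := by
  choose k hk using exists_lim
  refine ⟨mu, mu_prob, ?_, ?_, ?_, k, hk, ?_⟩
  · refine (Set.Finite.subset (s := {a, b}) (by simp) ?_).isCompact
    exact Measure.support_subset_of_isClosed (Set.toFinite _).isClosed (by simp [mu, mem_ae_iff])
  · rintro ⟨𝓕, ⟨V, hV⟩, h1, h2⟩
    obtain ⟨v, v1, v2⟩ := V.ne_bot_iff.1 (h1 V hV).1
    have key : ∀ (g : G) (c : ℝ) (N : Matrix (Fin 2) (Fin 2) ℝ), c ≠ 0 →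
        g ∈ Subsemigroup.closure mu.support →
        (∀ n : ℕ, (g ^ n).val = c ^ n • (1 + (n : ℝ) • N)) →
        v 0 * (N *ᵥ v) 1 - v 1 * (N *ᵥ v) 0 = 0 := by
      intro g c N c0 hg hN
      have e1 : ∀ n : ℕ, ∃ W : 𝓕, (g ^ n).val *ᵥ v ∈ W.1 := by
        intro n
        induction n with
        | zero => exact ⟨⟨V, hV⟩, by simpa⟩
        | succ n ih =>
          obtain ⟨W, hW⟩ := ih
          obtain ⟨W', a1, a2⟩ := h2 g (subset_closure hg) _ ⟨W, W.2, hW⟩
          exact ⟨⟨W', a1⟩, by rwa [pow_succ', Units.val_mul, ← mulVec_mulVec]⟩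
      choose W hW using e1
      obtain ⟨n, m, hnm, e⟩ := Finite.exists_ne_map_eq_of_infinite W
      have e2 : ∀ n : ℕ, v + (n : ℝ) • N *ᵥ v ∈ (W n).1 := fun n => by
        have := hW n
        rwa [hN, smul_mulVec, add_mulVec, smul_mulVec, one_mulVec,
          Submodule.smul_mem_iff _ (pow_ne_zero _ c0)] at this
      have e3 : N *ᵥ v ∈ (W n).1 := by
        have := sub_mem (e2 n) (e ▸ e2 m)
        rwa [add_sub_add_left_eq_sub, ← sub_smul, Submodule.smul_mem_iff _
          (sub_ne_zero.2 (Nat.cast_injective.ne hnm))] at this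
      have e4 : v ∈ (W n).1 := by
        simpa only [add_sub_cancel_right] using sub_mem (e2 n) (Submodule.smul_mem _ (n : ℝ) e3)
      by_contra d
      refine (h1 _ (W n).2).2 (eq_top_iff.2 fun u _ => ?_)
      generalize N *ᵥ v = w at *
      have : u = ((u 0 * w 1 - u 1 * w 0) / (v 0 * w 1 - v 1 * w 0)) • v +
          ((v 0 * u 1 - v 1 * u 0) / (v 0 * w 1 - v 1 * w 0)) • w := by
        generalize hD : v 0 * w 1 - v 1 * w 0 = D at d
        ext i
        fin_cases i <;> simp <;> field_simp <;> rw [← hD] <;> ring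
      rw [this]
      exact add_mem (Submodule.smul_mem _ _ e4) (Submodule.smul_mem _ _ e3)
    have k1 := key a 1 _ one_ne_zero mem_sg.1 a_pow
    have k2 := key b 2 _ two_ne_zero mem_sg.2 b_pow
    simp [mulVec, dotProduct] at k1 k2
    exact v2 (funext fun i => by fin_cases i <;> simp [k1, k2])
  · have s5 : ((√5 : ℝ) : ℂ) ^ 2 = 5 := by norm_cast; simp
    have s0 : (0 : ℝ) < √5 := by positivity
    have s3 : √5 < 3 := (Real.sqrt_lt' (by norm_num)).2 (by norm_num)
    have e : ((a * b).val.map Complex.ofReal).charpoly =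
        (Polynomial.X - C ((3 + √5 : ℝ) : ℂ)) * (Polynomial.X - C ((3 - √5 : ℝ) : ℂ)) := by
      rw [charpoly_fin_two, mul_sub, sub_mul, sub_mul, ← C_mul, show ((3 + √5 : ℝ) : ℂ) *
        ((3 - √5 : ℝ) : ℂ) = 4 by push_cast; linear_combination -s5]
      simp [a_val, b_val, det_fin_two, trace_fin_two]
      norm_num [C_ofNat]
      ring
    refine ⟨a * b, subset_closure (mul_mem mem_sg.1 mem_sg.2), (3 + √5 : ℝ), ?_, fun z hz hne => ?_⟩
    · rw [e, rootMultiplicity_mul (mul_ne_zero (X_sub_C_ne_zero _) (X_sub_C_ne_zero _)),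
        rootMultiplicity_X_sub_C_self, rootMultiplicity_X_sub_C, if_neg]
      exact_mod_cast (by linarith)
    · rw [e, IsRoot, eval_mul, mul_eq_zero] at hz
      simp only [eval_sub, eval_X, eval_C, sub_eq_zero, hne, false_or] at hz
      rw [hz, Complex.norm_real, Complex.norm_real, Real.norm_of_nonneg (by linarith),
        Real.norm_of_nonneg (by linarith)]
      linarith
  have l2 : 0 < Real.log 2 := Real.log_pos (by norm_num)
  have l8 : Real.log (8 / 9) = Real.log (1 / 9) + 3 * Real.log 2 := by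
    rw [show (8 / 9 : ℝ) = 1 / 9 * 2 ^ 3 by norm_num, Real.log_mul (by norm_num) (by norm_num),
      Real.log_pow]
    norm_num
  have up : ∀ t M : ℝ, t ≤ -2 → 1 / 9 ≤ M → 8 / 9 * 2 ^ t ≤ M → k t ≤ Real.log M := by
    intro t M h0 h1 h2
    refine le_of_tendsto (hk t) (eventually_atTop.2 ⟨1, fun n hn => ?_⟩)
    rw [div_le_iff₀' (by exact_mod_cast hn), ← Real.log_pow]
    exact Real.log_le_log (Z_pos _ _) (upper h0 h1 h2 n)
  have r3 : (2 : ℝ) ^ (-3 : ℝ) = 1 / 8 := by norm_num
  have k1 : ∀ t, t ≤ -3 → k t = Real.log (1 / 9) := fun t ht => le_antisymm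
    (up _ _ (by linarith) le_rfl
      (by linarith [(Real.rpow_le_rpow_of_exponent_le one_le_two ht).trans_eq r3]))
    (by simpa using lower (by linarith) (by norm_num) one_pos a_pow
          (fun n => (I_low n _ fun g => (Real.rpow_pos_of_pos (nrm_pos g) t).le).1) (hk t))
  have k2 : ∀ t, -3 ≤ t → t ≤ -2 → k t = Real.log (8 / 9) + t * Real.log 2 := fun t ht ht' =>
    le_antisymm ((up _ _ ht'
      (by linarith [r3.ge.trans (Real.rpow_le_rpow_of_exponent_le one_le_two ht)]) le_rfl).trans_eq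
      (by rw [Real.log_mul (by norm_num) (by positivity), Real.log_rpow (by norm_num)]))
      (lower (by linarith) (by norm_num) two_pos b_pow
        (fun n => (I_low n _ fun g => (Real.rpow_pos_of_pos (nrm_pos g) t).le).2) (hk t))
  have k0 : k 0 = 0 := tendsto_nhds_unique (hk 0) (by simp [I_const])
  by_contra hc
  simp only [not_exists, not_and, not_not] at hc
  have h3 : ¬AnalyticAt ℝ k (-3) := fun h => by
    have := (h.frequently_eq_iff_eventually_eq (analyticAt_const (v := Real.log (1 / 9)))).1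
      ((eventually_nhdsWithin_of_forall (s := Set.Iio (-3)) fun t ht => k1 t (le_of_lt ht)).frequently.filter_mono
        (nhdsWithin_mono _ fun t ht => ne_of_lt ht))
    obtain ⟨t, t1, t2⟩ := ((this.filter_mono nhdsWithin_le_nhds).and
      (Ioo_mem_nhdsGT (show (-3 : ℝ) < -2 by norm_num))).exists
    rw [k2 t t2.1.le t2.2.le] at t1
    nlinarith [t2.1]
  have h4 := AnalyticOnNhd.eqOn_of_preconnected_of_eventuallyEq (f := k)
    (g := fun t => Real.log (8 / 9) + t * Real.log 2) (U := Set.Ioi (-3))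
    (fun t ht => hc _ _ (ne_of_lt ht) h3) (fun t _ => by fun_prop) isPreconnected_Ioi
    (z₀ := -5 / 2) (by norm_num) (Filter.mem_of_superset
      (Icc_mem_nhds (show (-3 : ℝ) < -5 / 2 by norm_num) (show (-5 / 2 : ℝ) < -2 by norm_num))
      fun t ht => k2 t ht.1 ht.2) (show (0 : ℝ) ∈ Set.Ioi (-3) by norm_num)
  simp only [k0, zero_mul, add_zero] at h4
  linarith [Real.log_neg (x := 8 / 9) (by norm_num) (by norm_num)]

end Pool.Agent.Results.MP_2489e7_pr.TwoPoints
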